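import Pool.Agent.Helper5.FV.Stmts

/-!
# FV, row TAI: the tail is small
-/

set_option autoImplicit false

open Finset Pool.Agent.Helper8.UN

namespace Pool.Agent.Helper5.FV

theorem tai_real (n L w : ℕ) (X l : ℝ) (hn : 1 ≤ n) (hl : l = Real.log n) (hl0 : 0 < l)
    (hL : 10 * ((w : ℝ) + 1) * l ≤ L) (hX : 659 / 1000 * ((n : ℝ) / l) ≤ X) :
    (n : ℝ) ^ 5 * ((n.choose L : ℝ) * (w : ℝ) ^ L) ≤ X ^ L := by
  have hn0 : (0 : ℝ) < n := by exact_mod_cast hn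
  have hw0 : (0 : ℝ) ≤ w := Nat.cast_nonneg w
  have hL0 : (0 : ℝ) < L := lt_of_lt_of_le (by positivity) hL
  have hX0 : 0 < X := lt_of_lt_of_le (by positivity) hX
  have hf0 : (0 : ℝ) < (L.factorial : ℝ) := by exact_mod_cast L.factorial_pos
  have c1 : (n.choose L : ℝ) ≤ (n : ℝ) ^ L / (L.factorial : ℝ) := by
    exact_mod_cast Nat.choose_le_pow_div (α := ℝ) L n
  have c2 : (L : ℝ) ^ L / (L.factorial : ℝ) ≤ Real.exp L :=
    Real.pow_div_factorial_le_exp (L : ℝ) hL0.le L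
  have c3 : (L : ℝ) ^ L ≤ Real.exp L * (L.factorial : ℝ) := by
    rwa [div_le_iff₀ hf0] at c2
  have c4 : Real.exp (L : ℝ) = Real.exp 1 ^ L := by
    rw [← Real.exp_nat_mul, mul_one]
  have he : Real.exp 1 ≤ 2.7182818286 := Real.exp_one_lt_d9.le
  have hLX : 659 / 100 * (((w : ℝ) + 1) * n) ≤ L * X := by
    have h1 : (10 * ((w : ℝ) + 1) * l) * (659 / 1000 * ((n : ℝ) / l)) ≤ L * X :=
      mul_le_mul hL hX (by positivity) hL0.le
    have h2 : (10 * ((w : ℝ) + 1) * l) * (659 / 1000 * ((n : ℝ) / l)) =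
        659 / 100 * (((w : ℝ) + 1) * n) := by
      field_simp
      ring
    rwa [h2] at h1
  have key : (n : ℝ) * w * Real.exp 1 ≤ 1 / 2 * (L * X) := by
    have h1 : (n : ℝ) * w * Real.exp 1 ≤ n * w * 2.7182818286 :=
      mul_le_mul_of_nonneg_left he (by positivity)
    have h2 : 0 ≤ (n : ℝ) * w := by positivity
    nlinarith
  have c5 : (n.choose L : ℝ) * (w : ℝ) ^ L * (L : ℝ) ^ L ≤ (1 / 2 * (L * X)) ^ L := by
    calc (n.choose L : ℝ) * (w : ℝ) ^ L * (L : ℝ) ^ L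
        ≤ ((n : ℝ) ^ L / (L.factorial : ℝ)) * (w : ℝ) ^ L * (Real.exp L * (L.factorial : ℝ)) := by
          apply mul_le_mul _ c3 (by positivity) (by positivity)
          exact mul_le_mul_of_nonneg_right c1 (by positivity)
      _ = ((n : ℝ) * w * Real.exp 1) ^ L := by
          rw [c4, mul_pow, mul_pow]
          field_simp
      _ ≤ (1 / 2 * (L * X)) ^ L := pow_le_pow_left₀ (by positivity) key L
  have c6 : (n.choose L : ℝ) * (w : ℝ) ^ L ≤ (1 / 2) ^ L * X ^ L := by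
    have h1 : (1 / 2 * (L * X)) ^ L = (1 / 2) ^ L * X ^ L * (L : ℝ) ^ L := by
      rw [mul_pow, mul_pow]; ring
    rw [h1] at c5
    exact le_of_mul_le_mul_right c5 (by positivity)
  have c7 : (n : ℝ) ^ 5 * (1 / 2) ^ L ≤ 1 := by
    have h1 : (n : ℝ) ^ 5 ≤ 2 ^ L := by
      have h2 : Real.log ((n : ℝ) ^ 5) ≤ Real.log ((2 : ℝ) ^ L) := by
        rw [Real.log_pow, Real.log_pow, ← hl]
        have h3 := Real.log_two_gt_d9
        have h4 : 10 * l ≤ L := by nlinarith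
        push_cast
        nlinarith
      exact (Real.log_le_log_iff (by positivity) (by positivity)).1 h2
    rw [one_div, inv_pow]
    rw [← div_eq_mul_inv]
    exact (div_le_one (by positivity)).2 h1
  calc (n : ℝ) ^ 5 * ((n.choose L : ℝ) * (w : ℝ) ^ L)
      ≤ (n : ℝ) ^ 5 * ((1 / 2) ^ L * X ^ L) := mul_le_mul_of_nonneg_left c6 (by positivity)
    _ = ((n : ℝ) ^ 5 * (1 / 2) ^ L) * X ^ L := by ring
    _ ≤ 1 * X ^ L := mul_le_mul_of_nonneg_right c7 (by positivity)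
    _ = X ^ L := one_mul _

theorem st_TAI (h1 : ST_TLB) (h2 : ST_BKY) (h3 : Pool.Agent.Helper8.UN.ST_B3N) : ST_TAI := by
  obtain ⟨n₁, hn₁⟩ := h3
  refine ⟨max n₁ 3, ?_⟩
  intro n hn D0 r k E W0 hR hk
  have hn1 : n₁ ≤ n := le_trans (le_max_left _ _) hn
  have hn3 : 3 ≤ n := le_trans (le_max_right _ _) hn
  have hn3r : (3 : ℝ) ≤ n := by exact_mod_cast hn3
  have hl0 : 0 < Real.log n := Real.log_pos (by linarith)
  have hnl : 0 < (n : ℝ) / Real.log n := by positivity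
  obtain ⟨hr4, hDk, -, -, -, -⟩ := hn₁ n hn1 D0 r k hR.d0 hR.r0
    (le_trans (mul_le_mul_of_nonneg_right (by norm_num) hnl.le) hk)
  have hB : ∀ y, y ∉ W0 → BY E (DD n D0 r) y := fun y hy =>
    h2 n D0 r E y hR.two hr4 (hR.deg y hy)
  have hT := h1 n (DD n D0 r) k (LL n W0) E W0 hR.two hB
  set L := LL n W0 with hLdef
  set D := DD n D0 r with hD
  have hX : ((k - D : ℕ) : ℝ) = (k : ℝ) - D := by
    rw [Nat.cast_sub (by omega)]
  have hDk' : 1000 * (D : ℝ) ≤ k := by exact_mod_cast hDk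
  have hX1 : 659 / 1000 * ((n : ℝ) / Real.log n) ≤ ((k - D : ℕ) : ℝ) := by
    rw [hX]; nlinarith
  have hL : 10 * ((W0.card : ℝ) + 1) * Real.log n ≤ L := by
    rw [hLdef]; unfold LL; exact Nat.le_ceil _
  have hmain := tai_real n L W0.card ((k - D : ℕ) : ℝ) (Real.log n) (by omega) rfl hl0 hL hX1
  have hX0 : (0 : ℝ) < ((k - D : ℕ) : ℝ) := lt_of_lt_of_le (by positivity) hX1
  have hT' : ((k - D : ℕ) : ℝ) ^ L * (∑ Q ∈ (QQ E W0).filter
      (fun Q => L + W0.card ≤ (un Q).card), tt E Q k) ≤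
      (n.choose L : ℝ) * (W0.card : ℝ) ^ L * (PP E univ k : ℝ) := by
    have := (Nat.cast_le (α := ℝ)).2 hT
    push_cast at this
    unfold tt
    exact this
  have hP0 : (0 : ℝ) ≤ (PP E univ k : ℝ) := Nat.cast_nonneg _
  have hXL : (0 : ℝ) < ((k - D : ℕ) : ℝ) ^ L := by positivity
  refine le_of_mul_le_mul_left ?_ hXL
  calc ((k - D : ℕ) : ℝ) ^ L * ((n : ℝ) ^ 5 * ∑ Q ∈ (QQ E W0).filter
        (fun Q => L + W0.card ≤ (un Q).card), tt E Q k)
      = (n : ℝ) ^ 5 * (((k - D : ℕ) : ℝ) ^ L * ∑ Q ∈ (QQ E W0).filter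
        (fun Q => L + W0.card ≤ (un Q).card), tt E Q k) := by ring
    _ ≤ (n : ℝ) ^ 5 * ((n.choose L : ℝ) * (W0.card : ℝ) ^ L * (PP E univ k : ℝ)) :=
        mul_le_mul_of_nonneg_left hT' (by positivity)
    _ = ((n : ℝ) ^ 5 * ((n.choose L : ℝ) * (W0.card : ℝ) ^ L)) * (PP E univ k : ℝ) := by ring
    _ ≤ ((k - D : ℕ) : ℝ) ^ L * (PP E univ k : ℝ) := mul_le_mul_of_nonneg_right hmain hP0

end Pool.Agent.Helper5.FV
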