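import Pool.Agent.Helper5.FV.Stmts

/-!
# FV, row PSW: positivity
-/

set_option autoImplicit false

open Finset Pool.Agent.Helper8.UN

namespace Pool.Agent.Helper5.FV

theorem psw98_inj {n : ℕ} (W0 : Finset (Fin n)) (u v : Fin n) (hu : u ∈ W0) (hv : v ∈ W0)
    (h : (W0.filter (fun x => x ≤ u)).card = (W0.filter (fun x => x ≤ v)).card) : u = v := by
  have key : ∀ a b : Fin n, a ∈ W0 → b ∈ W0 → a < b →
      (W0.filter (fun x => x ≤ a)).card < (W0.filter (fun x => x ≤ b)).card := by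
    intro a b _ hb hab
    apply Finset.card_lt_card
    rw [Finset.ssubset_iff_of_subset]
    · refine ⟨b, Finset.mem_filter.2 ⟨hb, le_refl b⟩, ?_⟩
      intro h1
      exact absurd (Finset.mem_filter.1 h1).2 (not_le.2 hab)
    · intro x hx
      rw [Finset.mem_filter] at hx ⊢
      exact ⟨hx.1, le_trans hx.2 hab.le⟩
  rcases lt_trichotomy u v with h1 | h1 | h1
  · exact absurd h (key u v hu hv h1).ne
  · exact h1
  · exact absurd h (key v u hv hu h1).ne'

theorem psw98_pos {n : ℕ} (E : Finset (Finset (Fin n))) (W0 : Finset (Fin n)) (k : ℕ)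
    (hE : Two E) (hk : W0.card ≤ k) : 0 < PP E W0 k := by
  classical
  unfold PP
  refine Finset.card_pos.2
    ⟨fun v => if v ∈ W0 then (W0.filter (fun x => x ≤ v)).card else 0, ?_⟩
  unfold CC
  rw [mem_filter, Fintype.mem_piFinset]
  refine ⟨fun v => ?_, ?_⟩
  · by_cases hv : v ∈ W0
    · simp only [hv, if_true, Finset.mem_Icc]
      refine ⟨?_, ?_⟩
      · exact Finset.card_pos.2 ⟨v, Finset.mem_filter.2 ⟨hv, le_refl v⟩⟩
      · exact le_trans (Finset.card_le_card (Finset.filter_subset _ _)) hk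
    · simp [hv]
  · intro e he heW
    obtain ⟨a, ha, b, hb, hab⟩ := Finset.one_lt_card.1 (show 1 < e.card from hE e he)
    refine ⟨a, ha, b, hb, ?_⟩
    simp only [heW ha, heW hb, if_true]
    intro h
    exact hab (psw98_inj W0 a b (heW ha) (heW hb) h)

theorem st_PSW (h1 : ST_F1Y) (h2 : ST_BKY) (h3 : Pool.Agent.Helper8.UN.ST_B3N) : ST_PSW := by
  classical
  obtain ⟨n₁, hn₁⟩ := h3
  refine ⟨max n₁ 3, ?_⟩
  intro n hn D0 r k E W0 hR hk
  have hn1 : n₁ ≤ n := le_trans (le_max_left _ _) hn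
  have hn3 : 3 ≤ n := le_trans (le_max_right _ _) hn
  have hn3r : (3 : ℝ) ≤ n := by exact_mod_cast hn3
  have hl0 : 0 < Real.log n := Real.log_pos (by linarith)
  have hnl : 0 < (n : ℝ) / Real.log n := by positivity
  obtain ⟨hr4, hDk, -, hk1, -, -⟩ := hn₁ n hn1 D0 r k hR.d0 hR.r0
    (le_trans (mul_le_mul_of_nonneg_right (by norm_num) hnl.le) hk)
  have hW : W0.card ≤ k := by
    have hs : Real.sqrt n ≤ n := by
      have h5 : (1 : ℝ) ≤ Real.sqrt n := by
        rw [Real.one_le_sqrt]; linarith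
      nlinarith [Real.mul_self_sqrt (show (0 : ℝ) ≤ n by linarith)]
    have h6 : (W0.card : ℝ) ≤ k := by
      refine le_trans hR.w0 (le_trans ?_ hk)
      have h7 : Real.sqrt n / Real.log n ≤ n / Real.log n := div_le_div_of_nonneg_right hs hl0.le
      nlinarith [div_nonneg (Real.sqrt_nonneg n) hl0.le]
    exact_mod_cast h6
  have hB : ∀ y ∈ univ \ W0, BY E (DD n D0 r) y := fun y hy =>
    h2 n D0 r E y hR.two hr4 (hR.deg y (Finset.mem_sdiff.1 hy).2)
  have hT := h1 n (DD n D0 r) k E W0 (univ \ W0) hR.two hB disjoint_sdiff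
  rw [Finset.union_sdiff_of_subset (Finset.subset_univ W0)] at hT
  refine lt_of_lt_of_le ?_ hT
  have h8 : 0 < k - DD n D0 r := by omega
  exact Nat.mul_pos (pow_pos h8 _) (psw98_pos E W0 k hR.two hW)

end Pool.Agent.Helper5.FV
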